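import Pool.Agent.Helper65.FIVE.Flip
import Pool.Agent.Helper20.PS.Parity

/-!
# Parity of the two types of rainbow cells

Labels in `Fin 5`; `mrg` merges the labels `0` and `4`.
-/

set_option autoImplicit false

namespace Pool.Agent.Helper65.FIVE

open Equiv Matrix
open Pool.Agent.Helper20.PS (V T Ks N Dl rb rr rr_add Coh parity box_finite)
open Pool.Agent.Helper22.Sym (Superb)

/-- the indicator of the cells with the labels `0, 1, 2, 3` -/
def DC (lab : V → Fin 5) : V → V → V → V → ZMod 2 := fun a b c d => R (lab a) (lab b) (lab c) (lab d)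

/-- the labels `0` and `4` are merged -/
def mrg (l : Fin 5) : Fin 4 := if l = 1 then 1 else if l = 2 then 2 else if l = 3 then 3 else 0

/-- exchange of the labels `0` and `4` -/
def sw (l : Fin 5) : Fin 5 := if l = 0 then 4 else if l = 4 then 0 else l

theorem rb_mrg (a b c d : Fin 5) :
    rb (mrg a) (mrg b) (mrg c) (mrg d) = R a b c d + R (sw a) (sw b) (sw c) (sw d) := by
  revert a b c d
  decide +kernel

theorem Dl_mrg (lab : V → Fin 5) :
    Dl (fun z => mrg (lab z)) = fun a b c d => DC lab a b c d + DC (fun z => sw (lab z)) a b c d := by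
  funext a b c d
  exact rb_mrg _ _ _ _

variable {lab : V → Fin 5}

theorem HH_cyc (h : FinNear lab) (u v w t : V) (hs : u + v + w + t = 0) : HH lab u v w = HH lab v w t := by
  rw [HH_rot h u v w t hs, HH_rot h v w t u (by rw [← hs]; abel)]
  ring

/-- outside of a finite set there is no cell -/
theorem exists_outside (h : FinNear lab) (S : Finset V) : ∃ U : Finset V, ∀ a ∈ S, ∀ b ∈ S,
    ∀ c ∈ S, ∀ d ∈ S, ∀ x, x ∉ U → R (lab (x + a)) (lab (x + b)) (lab (x + c)) (lab (x + d)) = 0 := by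
  classical
  refine ⟨(h S).toFinset, fun a ha b hb c hc d hd x hx => ?_⟩
  by_contra hz
  apply hx
  rw [Set.Finite.mem_toFinset]
  intro i hi
  have h1 : Rb (lab (x + a)) (lab (x + b)) (lab (x + c)) (lab (x + d)) = true := by
    by_contra hcon
    exact hz (if_neg hcon)
  rcases (R_iff _ _ _ _).1 h1 i hi with h | h | h | h
  · exact ⟨a, ha, h⟩
  · exact ⟨b, hb, h⟩
  · exact ⟨c, hc, h⟩
  · exact ⟨d, hd, h⟩

/-- **The two counts agree.** -/
theorem N_eq_NN (h : FinNear lab) (f : Fin 4 → V) (hf : ∑ k, f k = 0) : N f (DC lab) = NN lab f := by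
  classical
  obtain ⟨U, hU⟩ := exists_outside h {0, f 0, f 1, f 2, f 0 + f 1, f 0 + f 2, f 1 + f 2, f 0 + f 1 + f 2}
  have hT : ∀ u v w : V, u ∈ ({0, f 0, f 1, f 2, f 0 + f 1, f 0 + f 2, f 1 + f 2, f 0 + f 1 + f 2} : Finset V) →
      u + v ∈ ({0, f 0, f 1, f 2, f 0 + f 1, f 0 + f 2, f 1 + f 2, f 0 + f 1 + f 2} : Finset V) →
      u + v + w ∈ ({0, f 0, f 1, f 2, f 0 + f 1, f 0 + f 2, f 1 + f 2, f 0 + f 1 + f 2} : Finset V) →
      ∀ z, z ∉ U → R (lab z) (lab (z + u)) (lab (z + u + v)) (lab (z + u + v + w)) = 0 := by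
    intro u v w h1 h2 h3 z hz
    have h4 := hU 0 (by simp) u h1 (u + v) h2 (u + v + w) h3 z hz
    simp only [add_zero, ← add_assoc] at h4
    exact h4
  have hH : ∀ u v w : V, u ∈ ({0, f 0, f 1, f 2, f 0 + f 1, f 0 + f 2, f 1 + f 2, f 0 + f 1 + f 2} : Finset V) →
      u + v ∈ ({0, f 0, f 1, f 2, f 0 + f 1, f 0 + f 2, f 1 + f 2, f 0 + f 1 + f 2} : Finset V) →
      u + v + w ∈ ({0, f 0, f 1, f 2, f 0 + f 1, f 0 + f 2, f 1 + f 2, f 0 + f 1 + f 2} : Finset V) →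
      HH lab u v w = ∑ z ∈ U, R (lab z) (lab (z + u)) (lab (z + u + v)) (lab (z + u + v + w)) := by
    intro u v w h1 h2 h3
    refine finsum_eq_sum_of_support_subset _ fun z hz => ?_
    by_contra hcon
    exact hz (hT u v w h1 h2 h3 z hcon)
  have e10 : f 1 + f 0 = f 0 + f 1 := add_comm _ _
  have e20 : f 2 + f 0 = f 0 + f 2 := add_comm _ _
  have e21 : f 2 + f 1 = f 1 + f 2 := add_comm _ _
  have e021 : f 0 + f 2 + f 1 = f 0 + f 1 + f 2 := by abel
  have e120 : f 1 + f 2 + f 0 = f 0 + f 1 + f 2 := by abel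
  have m012 := hH (f 0) (f 1) (f 2) (by simp) (by simp) (by simp)
  have m021 := hH (f 0) (f 2) (f 1) (by simp) (by simp) (by rw [e021]; simp)
  have m102 := hH (f 1) (f 0) (f 2) (by simp) (by rw [e10]; simp) (by rw [e10]; simp)
  have m120 := hH (f 1) (f 2) (f 0) (by simp) (by simp) (by rw [e120]; simp)
  have m201 := hH (f 2) (f 0) (f 1) (by simp) (by rw [e20]; simp) (by rw [e20, e021]; simp)
  have m210 := hH (f 2) (f 1) (f 0) (by simp) (by rw [e21]; simp) (by rw [e21, e120]; simp)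
  have hN : N f (DC lab) = HH lab (f 0) (f 1) (f 2) + HH lab (f 0) (f 2) (f 1) + HH lab (f 1) (f 0) (f 2) +
      HH lab (f 1) (f 2) (f 0) + HH lab (f 2) (f 0) (f 1) + HH lab (f 2) (f 1) (f 0) := by
    rw [m012, m021, m102, m120, m201, m210]
    simp only [← Finset.sum_add_distrib]
    refine finsum_eq_sum_of_support_subset _ fun z hz => ?_
    by_contra hcon
    apply hz
    have hcon' : z ∉ U := hcon
    show Ks f (DC lab) z = 0
    unfold Ks T DC
    rw [hT (f 0) (f 1) (f 2) (by simp) (by simp) (by simp) z hcon',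
      hT (f 0) (f 2) (f 1) (by simp) (by simp) (by rw [e021]; simp) z hcon',
      hT (f 1) (f 0) (f 2) (by simp) (by rw [e10]; simp) (by rw [e10]; simp) z hcon',
      hT (f 1) (f 2) (f 0) (by simp) (by simp) (by rw [e120]; simp) z hcon',
      hT (f 2) (f 0) (f 1) (by simp) (by rw [e20]; simp) (by rw [e20, e021]; simp) z hcon',
      hT (f 2) (f 1) (f 0) (by simp) (by rw [e21]; simp) (by rw [e21, e120]; simp) z hcon']
    simp only [add_zero]
  rw [hN, NN_cells h f hf]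
  rw [Fin.sum_univ_four] at hf
  rw [HH_cyc h (f 2) (f 0) (f 1) (f 3) (by rw [← hf]; abel), HH_cyc h (f 1) (f 0) (f 2) (f 3) (by rw [← hf]; abel),
    HH_cyc h (f 1) (f 2) (f 0) (f 3) (by rw [← hf]; abel), HH_cyc h (f 2) (f 0) (f 3) (f 1) (by rw [← hf]; abel),
    HH_cyc h (f 2) (f 1) (f 0) (f 3) (by rw [← hf]; abel), HH_cyc h (f 1) (f 0) (f 3) (f 2) (by rw [← hf]; abel)]
  ring

theorem supp_T (h : FinNear lab) (f : Fin 4 → V) (i j k : Fin 4) :
    (Function.support (T f (DC lab) i j k)).Finite := by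
  refine (fin_R h 0 (f i) (f i + f j) (f i + f j + f k)).subset fun z hz => ?_
  show R (lab (z + 0)) (lab (z + f i)) (lab (z + (f i + f j))) (lab (z + (f i + f j + f k))) ≠ 0
  simp only [add_zero, ← add_assoc]
  exact hz

theorem supp_DC (h : FinNear lab) (f : Fin 4 → V) : (Function.support (Ks f (DC lab))).Finite := by
  refine (((((((supp_T h f 0 1 2).union (supp_T h f 0 2 1)).union (supp_T h f 1 0 2)).union
    (supp_T h f 1 2 0)).union (supp_T h f 2 0 1)).union (supp_T h f 2 1 0))).subset fun z hz => ?_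
  by_contra hcon
  simp only [Set.mem_union, Function.mem_support, not_or, not_not] at hcon
  obtain ⟨⟨⟨⟨⟨h1, h2⟩, h3⟩, h4⟩, h5⟩, h6⟩ := hcon
  apply hz
  unfold Ks
  rw [h1, h2, h3, h4, h5, h6]
  simp only [add_zero]

theorem mrg_zero (l : Fin 5) (i : Fin 4) (h : l = ![0, 1, 2, 3] i) : mrg l = i := by
  subst h
  revert i
  decide

theorem mrg_sw (l : Fin 5) : mrg (sw l) = mrg l := by
  revert l
  decide

/-- finitely many places near which all labels occur -/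
theorem near_fin {g : Fin 4 → Fin 3 → ℝ} (hg : ∑ j, g j = 0)
    (hspan : ∀ m : Fin 3 → ℝ, ∃ c : Fin 4 → ℝ, ∑ k, c k • g k = m) {C : ℝ} {l4 : V → Fin 4} (hlab : Coh g l4 C)
    (S : Finset V) : {z : V | ∀ κ : Fin 4, ∃ u ∈ S, l4 (z + u) = κ}.Finite := by
  obtain ⟨A, hA, hctrl⟩ := Pool.Agent.Helper21.TET.exists_ctrl g hg hspan
  obtain ⟨G, hG⟩ : ∃ G : ℝ, G = ∑ u ∈ S, ∑ κ, |g κ ⬝ᵥ rr u| := ⟨_, rfl⟩
  have hG0 : 0 ≤ G := by
    rw [hG]
    exact Finset.sum_nonneg fun _ _ => Finset.sum_nonneg fun _ _ => abs_nonneg _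
  have hGu : ∀ u ∈ S, ∀ κ, g κ ⬝ᵥ rr u ≤ G := fun u hu κ => by
    have h1 : |g κ ⬝ᵥ rr u| ≤ ∑ κ, |g κ ⬝ᵥ rr u| :=
      Finset.single_le_sum (f := fun κ => |g κ ⬝ᵥ rr u|) (fun _ _ => abs_nonneg _) (Finset.mem_univ κ)
    have h2 : ∑ κ, |g κ ⬝ᵥ rr u| ≤ ∑ u ∈ S, ∑ κ, |g κ ⬝ᵥ rr u| :=
      Finset.single_le_sum (f := fun u => ∑ κ, |g κ ⬝ᵥ rr u|)
        (fun _ _ => Finset.sum_nonneg fun _ _ => abs_nonneg _) hu
    rw [hG]
    exact (le_abs_self _).trans (h1.trans h2)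
  obtain ⟨c, hc⟩ : ∃ c : ℝ, c = |C| + G := ⟨_, rfl⟩
  refine (box_finite (A * (3 * c))).subset fun z hz k => ?_
  have h1 : ∀ κ, -c ≤ g κ ⬝ᵥ rr z := fun κ => by
    obtain ⟨u, hu, h⟩ := hz κ
    have h2 := hlab (z + u)
    rw [h, rr_add, dotProduct_add] at h2
    have h3 := hGu u hu κ
    have h4 := le_abs_self C
    linarith
  have h2 : ∑ κ, g κ ⬝ᵥ rr z = 0 := by rw [← sum_dotProduct, hg, zero_dotProduct]
  refine hctrl (rr z) (3 * c) (fun j => ?_) k
  rw [Fin.sum_univ_four] at h2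
  have e0 := h1 0
  have e1 := h1 1
  have e2 := h1 2
  have e3 := h1 3
  fin_cases j
  · show g 0 ⬝ᵥ rr z ≤ 3 * c
    linarith
  · show g 1 ⬝ᵥ rr z ≤ 3 * c
    linarith
  · show g 2 ⬝ᵥ rr z ≤ 3 * c
    linarith
  · show g 3 ⬝ᵥ rr z ≤ 3 * c
    linarith

theorem finNear_of_coh {g : Fin 4 → Fin 3 → ℝ} (hg : ∑ j, g j = 0)
    (hspan : ∀ m : Fin 3 → ℝ, ∃ c : Fin 4 → ℝ, ∑ k, c k • g k = m) {C : ℝ}
    (hlab : Coh g (fun z => mrg (lab z)) C) : FinNear lab := by
  intro S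
  refine (near_fin hg hspan hlab S).subset fun z hz κ => ?_
  obtain ⟨u, hu, h⟩ := hz (![0, 1, 2, 3] κ) (by revert κ; decide)
  exact ⟨u, hu, mrg_zero _ κ h⟩

theorem finNear_sw {g : Fin 4 → Fin 3 → ℝ} (hg : ∑ j, g j = 0)
    (hspan : ∀ m : Fin 3 → ℝ, ∃ c : Fin 4 → ℝ, ∑ k, c k • g k = m) {C : ℝ}
    (hlab : Coh g (fun z => mrg (lab z)) C) : FinNear fun z => sw (lab z) :=
  finNear_of_coh (C := C) hg hspan (by
    have : (fun z => mrg (sw (lab z))) = fun z => mrg (lab z) := funext fun z => mrg_sw _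
    rw [this]
    exact hlab)

/-- **Parity of the two types of rainbow cells together.** -/
theorem NN_parity {f u : Fin 4 → V} (h : Superb f u) {g : Fin 4 → Fin 3 → ℝ} (hg : ∑ j, g j = 0)
    (hspan : ∀ m : Fin 3 → ℝ, ∃ c : Fin 4 → ℝ, ∑ k, c k • g k = m) {C : ℝ}
    (hlab : Coh g (fun z => mrg (lab z)) C) : NN lab f + NN (fun z => sw (lab z)) f = 1 := by
  have h1 := parity h hg hspan hlab
  rw [Dl_mrg] at h1
  rw [← N_eq_NN (finNear_of_coh hg hspan hlab) f h.1, ← N_eq_NN (finNear_sw hg hspan hlab) f h.1, ← h1]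
  unfold N
  rw [← finsum_add_distrib (supp_DC (finNear_of_coh hg hspan hlab) f) (supp_DC (finNear_sw hg hspan hlab) f)]
  refine finsum_congr fun z => ?_
  unfold Ks T
  ring

end Pool.Agent.Helper65.FIVE
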