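import Pool.Agent.Helper24.FV.Input
import Pool.Agent.Helper24.UB.WtLast
import Pool.Agent.Helper20.PS.State

/-!
# Five facets: the asymmetry budget

`K` is the polytope `L i ≥ 0`, `∑ L i ≤ 1`, `∑ μ i L i ≤ 1` (`L i = b i - g i · x`, `i = 1, 2, 3`).  The largest values
of `L i` are `min 1 (1 / μ i)`, the point with `L i = min 1 (1 / μ i) / (1 + s)` is a centre for every
`s ≥ ∑ min 1 (1 / μ i)`, `s ≥ ∑ min 1 (μ i)`.  So one of the two sums is larger than `2.66`.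
-/

set_option autoImplicit false

namespace Pool.Agent.Helper65.FIVE

open Matrix
open Pool.Agent.Helper20.FIVE
open Pool.Agent.Helper12.LW (LFree toR)
open Pool.Agent.Helper84.FL (WidthLe)
open Pool.Agent.Helper20.PS (Two vD bD cf cf_pos rT bT)
open Pool.Agent.Helper24.FV (exists_two)

/-- `K` is the polytope of the five facets -/
structure Two5 (K : Set (Fin 3 → ℝ)) (W : ℝ) (g : Fin 4 → Fin 3 → ℝ) (b : Fin 4 → ℝ) (mu : Fin 3 → ℝ) : Prop where
  two : Two K W g b mu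
  mem : ∀ x, (∀ j, g j ⬝ᵥ x ≤ b j) → vD g mu ⬝ᵥ x ≤ bD b mu → x ∈ K

section

variable {K : Set (Fin 3 → ℝ)} {W : ℝ} {g : Fin 4 → Fin 3 → ℝ} {b : Fin 4 → ℝ} {mu : Fin 3 → ℝ}

/-- the coordinates of a point with prescribed values -/
theorem Two5.exists_point (h : Two5 K W g b mu) (y : Fin 3 → ℝ) : ∃ c : Fin 3 → ℝ, ∀ i : Fin 3, g i.succ ⬝ᵥ c = y i := by
  have hinj : Function.Injective (Matrix.mulVec (Matrix.of fun i : Fin 3 => g i.succ)) := by
    intro x z hxz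
    rw [← sub_eq_zero]
    have h1 : ∀ i : Fin 3, g i.succ ⬝ᵥ (x - z) = 0 := by
      intro i
      have h2 := congrFun hxz i
      simp only [Matrix.mulVec, Matrix.of_apply] at h2
      rw [dotProduct_sub, h2, sub_self]
    have h2 : g 0 ⬝ᵥ (x - z) = 0 := by
      have h3 := h.two.sum_g
      rw [Fin.sum_univ_succ] at h3
      rw [eq_neg_of_add_eq_zero_left h3, neg_dotProduct, sum_dotProduct, Finset.sum_eq_zero fun i _ => h1 i, neg_zero]
    obtain ⟨a, ha⟩ := h.two.span (x - z)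
    have h4 : (x - z) ⬝ᵥ (x - z) = 0 := by
      have h5 : (∑ j, a j • g j) ⬝ᵥ (x - z) = 0 := by
        rw [sum_dotProduct]
        refine Finset.sum_eq_zero fun j _ => ?_
        rw [smul_dotProduct]
        refine Fin.cases ?_ (fun i => ?_) j
        · rw [h2, smul_zero]
        · rw [h1, smul_zero]
      rw [ha] at h5
      exact h5
    exact dotProduct_self_eq_zero.1 h4
  have hunit : IsUnit (Matrix.of fun i : Fin 3 => g i.succ) := Matrix.mulVec_injective_iff_isUnit.1 hinj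
  obtain ⟨c, hc⟩ := (Matrix.mulVec_surjective_iff_isUnit.2 hunit) y
  exact ⟨c, fun i => congrFun hc i⟩

theorem Two5.sum_L (h : Two5 K W g b mu) (x : Fin 3 → ℝ) :
    (b 0 - g 0 ⬝ᵥ x) + ∑ i : Fin 3, (b i.succ - g i.succ ⬝ᵥ x) = 1 := by
  have h1 := h.two.sum_g
  have h2 := h.two.sum_b
  have h3 : ∑ j, g j ⬝ᵥ x = 0 := by rw [← sum_dotProduct, h1, zero_dotProduct]
  rw [Fin.sum_univ_succ] at h2 h3
  rw [Finset.sum_sub_distrib]
  linarith

theorem LD_eq (g : Fin 4 → Fin 3 → ℝ) (b : Fin 4 → ℝ) (mu : Fin 3 → ℝ) (x : Fin 3 → ℝ) :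
    bD b mu - vD g mu ⬝ᵥ x = 1 - ∑ i : Fin 3, mu i * (b i.succ - g i.succ ⬝ᵥ x) := by
  unfold bD vD
  rw [neg_dotProduct, sum_dotProduct]
  simp only [smul_dotProduct, smul_eq_mul, mul_sub, Finset.sum_sub_distrib]
  ring

theorem mul_min_inv {a : ℝ} (ha : 0 < a) : a * min 1 (1 / a) = min 1 a := by
  rw [mul_min_of_nonneg _ _ ha.le, mul_one, mul_one_div_cancel ha.ne', min_comm]

/-- **The asymmetry budget.** -/
theorem Two5.budget (h : Two5 K (2 + Real.sqrt 2) g b mu) :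
    266 / 100 < ∑ i, min 1 (1 / mu i) ∨ 266 / 100 < ∑ i, min 1 (mu i) := by
  by_contra hcon
  push Not at hcon
  obtain ⟨hC, hD⟩ := hcon
  have hmu := h.two.mu_pos
  obtain ⟨c, hc⟩ := h.exists_point fun i => b i.succ - min 1 (1 / mu i) / (366 / 100)
  have hLc : ∀ i : Fin 3, b i.succ - g i.succ ⬝ᵥ c = min 1 (1 / mu i) / (366 / 100) := fun i => by rw [hc i]; ring
  have hcomb : ∀ (n : Fin 3 → ℝ) (β : ℝ) (x : Fin 3 → ℝ), β - n ⬝ᵥ x ≤ 366 / 100 * (β - n ⬝ᵥ c) →
      n ⬝ᵥ (c - (1 / (266 / 100 : ℝ)) • (x - c)) ≤ β := by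
    intro n β x hx
    rw [dotProduct_sub, dotProduct_smul, dotProduct_sub, smul_eq_mul]
    linarith
  have hcen : ∀ x ∈ K, c - (1 / (266 / 100 : ℝ)) • (x - c) ∈ K := by
    intro x hx
    have hL : ∀ i : Fin 3, 0 ≤ b i.succ - g i.succ ⬝ᵥ x := fun i => sub_nonneg.2 (h.two.sub _ x hx)
    have hL0 : 0 ≤ b 0 - g 0 ⬝ᵥ x := sub_nonneg.2 (h.two.sub _ x hx)
    have hLD : 0 ≤ bD b mu - vD g mu ⬝ᵥ x := sub_nonneg.2 (h.two.subD x hx)
    have hsum := h.sum_L x
    rw [LD_eq] at hLD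
    have hsl : ∀ i : Fin 3, b i.succ - g i.succ ⬝ᵥ x ≤ ∑ i : Fin 3, (b i.succ - g i.succ ⬝ᵥ x) := fun i =>
      Finset.single_le_sum (f := fun i : Fin 3 => b i.succ - g i.succ ⬝ᵥ x) (fun j _ => hL j) (Finset.mem_univ i)
    have hslD : ∀ i : Fin 3, mu i * (b i.succ - g i.succ ⬝ᵥ x) ≤
        ∑ i : Fin 3, mu i * (b i.succ - g i.succ ⬝ᵥ x) := fun i =>
      Finset.single_le_sum (f := fun i : Fin 3 => mu i * (b i.succ - g i.succ ⬝ᵥ x))
        (fun j _ => mul_nonneg (hmu j).le (hL j)) (Finset.mem_univ i)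
    refine h.mem _ (fun j => ?_) ?_
    · apply hcomb
      refine Fin.cases ?_ (fun i => ?_) j
      · -- facet `C`
        have h1 := h.sum_L c
        simp only [hLc] at h1
        rw [← Finset.sum_div] at h1
        have h2 : b 0 - g 0 ⬝ᵥ c = 1 - (∑ i, min 1 (1 / mu i)) / (366 / 100) := by linarith
        rw [h2]
        have h3 : 0 ≤ ∑ i : Fin 3, (b i.succ - g i.succ ⬝ᵥ x) := Finset.sum_nonneg fun i _ => hL i
        linarith
      · rw [hLc]
        have h1 : b i.succ - g i.succ ⬝ᵥ x ≤ min 1 (1 / mu i) := by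
          refine le_min ?_ ?_
          · have := hsl i
            linarith
          · rw [le_div_iff₀ (hmu i)]
            have := hslD i
            linarith
        linarith
    · apply hcomb
      rw [LD_eq, LD_eq]
      simp only [hLc]
      have h1 : ∑ i : Fin 3, mu i * (min 1 (1 / mu i) / (366 / 100)) = (∑ i, min 1 (mu i)) / (366 / 100) := by
        rw [Finset.sum_div]
        refine Finset.sum_congr rfl fun i _ => ?_
        rw [← mul_min_inv (hmu i)]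
        ring
      rw [h1]
      have h3 : 0 ≤ ∑ i : Fin 3, mu i * (b i.succ - g i.succ ⬝ᵥ x) :=
        Finset.sum_nonneg fun i _ => mul_nonneg (hmu i).le (hL i)
      linarith
  obtain ⟨y, hy0, hy⟩ := Pool.Agent.Helper24.UB.asym266 K h.two.free.compact h.two.free.convex
    h.two.free.interior_nonempty h.two.free.free c (266 / 100) (by norm_num) le_rfl hcen
  obtain ⟨x, hx, x', hx', hlt⟩ := h.two.wide y hy0
  have h1 := hy x hx x' hx'
  have h2 : toR y ⬝ᵥ (x - x') = ∑ i, (x i - x' i) * (y i : ℝ) := by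
    unfold dotProduct toR
    exact Finset.sum_congr rfl fun i _ => by rw [Pi.sub_apply]; ring
  rw [h2] at hlt
  linarith

/-- the exchange of the two circuits -/
def gS (g : Fin 4 → Fin 3 → ℝ) (mu : Fin 3 → ℝ) : Fin 4 → Fin 3 → ℝ := Fin.cons (vD g mu) fun i => mu i • g i.succ

/-- the heights -/
def bS (b : Fin 4 → ℝ) (mu : Fin 3 → ℝ) : Fin 4 → ℝ := Fin.cons (bD b mu) fun i => mu i * b i.succ

theorem vD_gS (g : Fin 4 → Fin 3 → ℝ) {mu : Fin 3 → ℝ} (hmu : ∀ i, 0 < mu i) (hg : ∑ j, g j = 0) :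
    vD (gS g mu) (fun i => 1 / mu i) = g 0 := by
  unfold vD
  rw [Fin.sum_univ_succ] at hg
  rw [eq_neg_of_add_eq_zero_left hg]
  congr 1
  refine Finset.sum_congr rfl fun i _ => ?_
  show (1 / mu i) • (mu i • g i.succ) = g i.succ
  rw [smul_smul, one_div_mul_cancel (hmu i).ne', one_smul]

theorem bD_bS (b : Fin 4 → ℝ) {mu : Fin 3 → ℝ} (hmu : ∀ i, 0 < mu i) (hb : ∑ j, b j = 1) :
    bD (bS b mu) (fun i => 1 / mu i) = b 0 := by
  unfold bD
  rw [Fin.sum_univ_succ] at hb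
  have h1 : ∑ i : Fin 3, 1 / mu i * bS b mu i.succ = ∑ i : Fin 3, b i.succ := by
    refine Finset.sum_congr rfl fun i _ => ?_
    show 1 / mu i * (mu i * b i.succ) = b i.succ
    rw [← mul_assoc, one_div_mul_cancel (hmu i).ne', one_mul]
  rw [h1]
  linarith

theorem Two5.swap (h : Two5 K W g b mu) : Two5 K W (gS g mu) (bS b mu) fun i => 1 / mu i := by
  have hmu := h.two.mu_pos
  have e1 := vD_gS g hmu h.two.sum_g
  have e2 := bD_bS b hmu h.two.sum_b
  have hsub : ∀ x, (∀ j, gS g mu j ⬝ᵥ x ≤ bS b mu j) ↔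
      (vD g mu ⬝ᵥ x ≤ bD b mu ∧ ∀ i : Fin 3, g i.succ ⬝ᵥ x ≤ b i.succ) := by
    intro x
    rw [Fin.forall_fin_succ]
    refine and_congr Iff.rfl (forall_congr' fun i => ?_)
    show (mu i • g i.succ) ⬝ᵥ x ≤ mu i * b i.succ ↔ _
    rw [smul_dotProduct, smul_eq_mul]
    exact mul_le_mul_iff_right₀ (hmu i)
  refine ⟨⟨h.two.free, h.two.wide, ?_, ?_, ?_, fun i => one_div_pos.2 (hmu i), ?_, ?_, ?_⟩, ?_⟩
  · rw [Fin.sum_univ_succ]
    show vD g mu + ∑ i : Fin 3, mu i • g i.succ = 0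
    unfold vD
    rw [neg_add_cancel]
  · rw [Fin.sum_univ_succ]
    show bD b mu + ∑ i : Fin 3, mu i * b i.succ = 1
    unfold bD
    ring
  · intro m
    obtain ⟨a, ha⟩ := h.two.span m
    refine ⟨Fin.cons 0 fun i : Fin 3 => (a i.succ - a 0) / mu i, ?_⟩
    rw [Fin.sum_univ_succ, ← ha, Fin.sum_univ_succ (f := fun j => a j • g j)]
    show (0 : ℝ) • vD g mu + ∑ i : Fin 3, ((a i.succ - a 0) / mu i) • (mu i • g i.succ) = _
    have h1 := h.two.sum_g
    rw [Fin.sum_univ_succ] at h1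
    rw [zero_smul, zero_add, eq_neg_of_add_eq_zero_left h1, smul_neg, Finset.smul_sum, ← sub_eq_neg_add,
      ← Finset.sum_sub_distrib]
    refine Finset.sum_congr rfl fun i _ => ?_
    rw [smul_smul, div_mul_cancel₀ _ (hmu i).ne', sub_smul]
  · intro j x hx
    have h1 := (hsub x).2 ⟨h.two.subD x hx, fun i => h.two.sub _ x hx⟩
    exact h1 j
  · intro x hx
    rw [e1, e2]
    exact h.two.sub 0 x hx
  · intro z
    rw [e1, e2]
    rcases h.two.cover z with ⟨j, hj⟩ | h1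
    · revert hj
      refine Fin.cases (fun hj => ?_) (fun i hj => ?_) j
      · exact Or.inr hj
      · refine Or.inl ⟨i.succ, ?_⟩
        show mu i * b i.succ ≤ (mu i • g i.succ) ⬝ᵥ toR z
        rw [smul_dotProduct, smul_eq_mul]
        exact mul_le_mul_of_nonneg_left hj (hmu i).le
    · exact Or.inl ⟨0, h1⟩
  · intro x hx h1
    rw [e1, e2] at h1
    obtain ⟨h2, h3⟩ := (hsub x).1 hx
    exact h.mem x (fun j => Fin.cases h1 h3 j) h2

/-- the budget and the order of the two circuits -/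
def Bud (mu : Fin 3 → ℝ) : Prop :=
  266 / 100 < ∑ i, min 1 (1 / mu i) ∧ ∑ i, min 1 (mu i) ≤ ∑ i, min 1 (1 / mu i)

theorem Two5.order (h : Two5 K (2 + Real.sqrt 2) g b mu) :
    ∃ (g' : Fin 4 → Fin 3 → ℝ) (b' : Fin 4 → ℝ) (mu' : Fin 3 → ℝ), Two5 K (2 + Real.sqrt 2) g' b' mu' ∧ Bud mu' := by
  rcases le_total (∑ i, min 1 (mu i)) (∑ i, min 1 (1 / mu i)) with h1 | h1
  · refine ⟨g, b, mu, h, ?_, h1⟩
    rcases h.budget with h2 | h2
    · exact h2
    · exact h2.trans_le h1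
  · refine ⟨_, _, _, h.swap, ?_, ?_⟩
    · simp only [one_div_one_div]
      rcases h.budget with h2 | h2
      · exact h2.trans_le h1
      · exact h2
    · simp only [one_div_one_div]
      exact h1

end

/-- **The input with the budget.** -/
theorem exists_input5 (n : Fin 5 → Fin 3 → ℝ) (b : Fin 5 → ℝ) (hcomp : IsCompact (Half n b))
    (hint : (interior (Half n b)).Nonempty) (hfree : ∀ z : Fin 3 → ℤ, toR z ∉ interior (Half n b))
    (hW : ¬ WidthLe (Half n b) (2 + Real.sqrt 2)) :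
    ∃ (K : Set (Fin 3 → ℝ)) (g : Fin 4 → Fin 3 → ℝ) (b' : Fin 4 → ℝ) (μ : Fin 3 → ℝ),
      Two5 K (2 + Real.sqrt 2) g b' μ ∧ Bud μ := by
  classical
  obtain ⟨p, hp⟩ := hint
  have hpK := interior_subset hp
  obtain ⟨β, hβ⟩ : ∃ β : Fin 5 → ℝ, β = fun i => if n i = 0 then 1 else b i - n i ⬝ᵥ p := ⟨_, rfl⟩
  have hβ0 : ∀ i, 0 < β i := by
    intro i
    rw [hβ]
    simp only
    split_ifs with hi
    · exact one_pos
    · linarith [lt_of_interior hp i hi]
  have heq : Pol n p β = Half n b := by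
    ext x
    have h1 : ∀ i, (n i ⬝ᵥ (x - p) ≤ β i ↔ n i ⬝ᵥ x ≤ b i) := by
      intro i
      rw [hβ]
      simp only
      split_ifs with hi
      · rw [hi, zero_dotProduct, zero_dotProduct]
        have h2 := hpK i
        rw [hi, zero_dotProduct] at h2
        exact ⟨fun _ => h2, fun _ => zero_le_one⟩
      · rw [dotProduct_sub]
        constructor <;> intro h <;> linarith
    exact forall_congr' h1
  have hW0 : 0 < 2 + Real.sqrt 2 := by positivity
  obtain ⟨η, β', hη, hβ', hsh⟩ := shrink n p β hβ0 (by rw [heq]; exact hcomp) (2 + Real.sqrt 2) hW0 (by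
    intro r hr
    rw [heq]
    exact wide_of_not hW r hr)
  obtain ⟨n', hn', hgen⟩ := Pool.Agent.Helper21.FIVE.exists_generic n η hη
  obtain ⟨h1, h2, h3⟩ := hsh n' hn'
  rw [heq] at h1
  have hpi : p ∈ interior (Pol n' p β') := Pol_interior n' p β' fun i => by
    rw [sub_self, dotProduct_zero]
    exact hβ' i
  have hLF : LFree (Pol n' p β') := ⟨h2, Pol_convex _ _ _, ⟨p, hpi⟩, fun z hz =>
    hfree z (h1 (interior_subset hz))⟩
  obtain ⟨g, b0, μ, hg, hb, hspan, hμ, hK⟩ := exists_two hgen hβ' h2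
  have hT : Two5 (Pol n' p β') (2 + Real.sqrt 2) g b0 μ := by
    refine ⟨⟨hLF, h3, hg, hb, hspan, hμ, fun j x hx => ((hK x).1 hx).1 j, fun x hx => ((hK x).1 hx).2, ?_⟩,
      fun x hx hx' => (hK x).2 ⟨hx, hx'⟩⟩
    intro z
    by_contra hcon
    push Not at hcon
    exact hfree z (h1 ((hK (toR z)).2 ⟨fun j => (hcon.1 j).le, hcon.2.le⟩))
  obtain ⟨g', b', mu', h4, h5⟩ := hT.order
  exact ⟨_, g', b', mu', h4, h5⟩

/-! ### the parameters at the time `t` -/

/-- `μ = (ρ / (1 - ρ)) / (t / (1 - t))` -/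
theorem mu_rT {mu : Fin 3 → ℝ} (hmu : ∀ i, 0 < mu i) {t : ℝ} (ht : t ∈ Set.Icc (0 : ℝ) 1) (i : Fin 3) :
    mu i * ((1 - rT mu t i) * t) = rT mu t i * (1 - t) := by
  have h1 := cf_pos hmu ht i
  unfold rT
  have h2 : cf mu t i = (1 - t) + t * mu i := rfl
  field_simp
  rw [h2]
  ring

/-- the height of the fifth facet is `t` -/
theorem etaD_eq {b : Fin 4 → ℝ} {mu : Fin 3 → ℝ} (hmu : ∀ i, 0 < mu i) {t : ℝ} (ht : t ∈ Set.Icc (0 : ℝ) 1) :
    t * bD b mu + ∑ i, rT mu t i * bT b mu t i = t := by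
  have h1 : ∀ i, rT mu t i * bT b mu t i = t * (mu i * b i.succ) := by
    intro i
    have h2 := cf_pos hmu ht i
    unfold rT bT
    field_simp
  simp only [h1]
  rw [← Finset.mul_sum]
  unfold bD
  ring

/-- (B1), (B2): `e i = 1 - min 1 (1 / μ i)` is the truncation of the vertex `i` -/
theorem bud_rows {mu : Fin 3 → ℝ} (hmu : ∀ i, 0 < mu i) (hb : Bud mu) {t : ℝ} (ht : t ∈ Set.Icc (0 : ℝ) 1) :
    ∃ e : Fin 3 → ℝ, (∀ i, 0 ≤ e i) ∧ ∑ i, e i < 34 / 100 ∧
      ∀ i, rT mu t i * (1 - e i) * (1 - t) ≤ (1 - rT mu t i) * t := by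
  refine ⟨fun i => 1 - min 1 (1 / mu i), fun i => sub_nonneg.2 (min_le_left _ _), ?_, fun i => ?_⟩
  · rw [Finset.sum_sub_distrib]
    simp only [Finset.sum_const, Finset.card_univ, Fintype.card_fin, nsmul_eq_mul, mul_one, Nat.cast_ofNat]
    have := hb.1
    linarith
  · have h1 := mu_rT hmu ht i
    have h2 : 1 - (1 - min 1 (1 / mu i)) = min 1 (1 / mu i) := by ring
    rw [h2]
    have h3 : min 1 (1 / mu i) ≤ 1 / mu i := min_le_right _ _
    have h4 : 0 ≤ rT mu t i := div_nonneg (mul_nonneg ht.1 (hmu i).le) (cf_pos hmu ht i).le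
    have h5 : 0 ≤ rT mu t i * (1 - t) := mul_nonneg h4 (sub_nonneg.2 ht.2)
    have h6 : rT mu t i * min 1 (1 / mu i) * (1 - t) = rT mu t i * (1 - t) * min 1 (1 / mu i) := by ring
    rw [h6]
    refine (mul_le_mul_of_nonneg_left h3 h5).trans (le_of_eq ?_)
    rw [← h1]
    have := (hmu i).ne'
    field_simp

end Pool.Agent.Helper65.FIVE
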