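import Pool.Agent.Helper65.FIVE.BudOut

/-!
# Five facets: the facet `C` is not redundant
-/

set_option autoImplicit false

namespace Pool.Agent.Helper65.FIVE

/-- `act` and `ord` give `act'` -/
theorem bud_act' {mu : Fin 3 → ℝ} (h : Pool.Agent.Helper20.PS.Bud mu) : ∃ i, mu i < 1 := by
  by_contra hcon
  push Not at hcon
  obtain ⟨i, hi⟩ := h.act
  have h1 : ∑ i, max 0 (1 - mu i) = 0 :=
    Finset.sum_eq_zero fun j _ => max_eq_left (sub_nonpos.2 (hcon j))
  have h2 : 0 < 1 - 1 / mu i := by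
    rw [sub_pos, div_lt_one (by linarith)]
    exact hi
  have h3 : max 0 (1 - 1 / mu i) ≤ ∑ i, max 0 (1 - 1 / mu i) :=
    Finset.single_le_sum (f := fun i => max 0 (1 - 1 / mu i)) (fun j _ => le_max_left _ _) (Finset.mem_univ i)
  have h4 := h.ord
  rw [h1] at h4
  linarith [le_max_right 0 (1 - 1 / mu i)]

/-- the parameters and the height: `t` lies strictly between the least and the largest `ρ` -/
theorem rT_lt_iff {mu : Fin 3 → ℝ} (hmu : ∀ i, 0 < mu i) {t : ℝ} (h0 : 0 < t) (h1 : t < 1) (i : Fin 3) :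
    (Pool.Agent.Helper20.PS.rT mu t i < t ↔ mu i < 1) ∧ (t < Pool.Agent.Helper20.PS.rT mu t i ↔ 1 < mu i) := by
  have hc := Pool.Agent.Helper20.PS.cf_pos hmu ⟨h0.le, h1.le⟩ i
  have hcf : Pool.Agent.Helper20.PS.cf mu t i = (1 - t) + t * mu i := rfl
  unfold Pool.Agent.Helper20.PS.rT
  rw [div_lt_iff₀ hc, lt_div_iff₀ hc, hcf]
  have ht := mul_pos h0 (sub_pos.2 h1)
  constructor
  · constructor
    · intro h
      by_contra hcon
      push Not at hcon
      nlinarith [mul_nonneg ht.le (sub_nonneg.2 hcon)]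
    · intro h
      nlinarith [mul_pos ht (sub_pos.2 h)]
  · constructor
    · intro h
      by_contra hcon
      push Not at hcon
      nlinarith [mul_nonneg ht.le (sub_nonneg.2 hcon)]
    · intro h
      nlinarith [mul_pos ht (sub_pos.2 h)]

/-- `min ρ < t < max ρ` for the parameters of the merged body -/
theorem bud_between {mu : Fin 3 → ℝ} (hmu : ∀ i, 0 < mu i) (h : Pool.Agent.Helper20.PS.Bud mu) {t : ℝ}
    (h0 : 0 < t) (h1 : t < 1) :
    (∃ i, Pool.Agent.Helper20.PS.rT mu t i < t) ∧ ∃ i, t < Pool.Agent.Helper20.PS.rT mu t i := by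
  obtain ⟨i, hi⟩ := bud_act' h
  obtain ⟨j, hj⟩ := h.act
  exact ⟨⟨i, ((rT_lt_iff hmu h0 h1 i).1).2 hi⟩, j, ((rT_lt_iff hmu h0 h1 j).2).2 hj⟩

end Pool.Agent.Helper65.FIVE
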