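import Pool.Agent.Helper65.FIVE.Bud
import Pool.Agent.Helper20.PS.Bud

/-!
# Five facets: the state with the budget
-/

set_option autoImplicit false

namespace Pool.Agent.Helper65.FIVE

open Matrix
open Pool.Agent.Helper20.FIVE
open Pool.Agent.Helper12.LW (LFree toR)
open Pool.Agent.Helper84.FL (WidthLe)
open Pool.Agent.Helper20.PS (Two Two.act BState exists_bstate)
open Pool.Agent.Helper38.TET (OChain)

theorem max_sub (a : ℝ) : max 0 (1 - a) = 1 - min 1 a := by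
  rcases le_total 1 a with h | h
  · rw [min_eq_left h, max_eq_left (by linarith)]
    ring
  · rw [min_eq_right h, max_eq_right (by linarith)]

/-- the budget in the form of `Helper20.PS.Bud` -/
theorem bud_out (thmA : ∀ (K : Set (Fin 3 → ℝ)) (f P : Fin 4 → Fin 3 → ℤ) (g : Fin 4 → Fin 3 → ℝ), LFree K →
      OChain K f P g → (∀ m : Fin 3 → ℝ, ∃ a : Fin 4 → ℝ, ∑ j, a j • g j = m) → WidthLe K (2 + Real.sqrt 2))
    {K : Set (Fin 3 → ℝ)} {g : Fin 4 → Fin 3 → ℝ} {b : Fin 4 → ℝ} {mu : Fin 3 → ℝ}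
    (h : Two5 K (2 + Real.sqrt 2) g b mu) (hb : Bud mu) : Pool.Agent.Helper20.PS.Bud mu := by
  refine ⟨?_, ?_, Two.act thmA h.two⟩
  · simp only [max_sub]
    rw [Finset.sum_sub_distrib]
    simp only [Finset.sum_const, Finset.card_univ, Fintype.card_fin, nsmul_eq_mul, mul_one, Nat.cast_ofNat]
    have := hb.1
    linarith
  · simp only [max_sub]
    rw [Finset.sum_sub_distrib, Finset.sum_sub_distrib]
    have := hb.2
    linarith

/-- **The two circuits with the budget.** -/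
theorem exists_input_bud (thmA : ∀ (K : Set (Fin 3 → ℝ)) (f P : Fin 4 → Fin 3 → ℤ) (g : Fin 4 → Fin 3 → ℝ), LFree K →
      OChain K f P g → (∀ m : Fin 3 → ℝ, ∃ a : Fin 4 → ℝ, ∑ j, a j • g j = m) → WidthLe K (2 + Real.sqrt 2))
    (n : Fin 5 → Fin 3 → ℝ) (b : Fin 5 → ℝ) (hcomp : IsCompact (Half n b))
    (hint : (interior (Half n b)).Nonempty) (hfree : ∀ z : Fin 3 → ℤ, toR z ∉ interior (Half n b))
    (hW : ¬ WidthLe (Half n b) (2 + Real.sqrt 2)) :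
    ∃ (K : Set (Fin 3 → ℝ)) (g : Fin 4 → Fin 3 → ℝ) (b' : Fin 4 → ℝ) (μ : Fin 3 → ℝ),
      Two K (2 + Real.sqrt 2) g b' μ ∧ Pool.Agent.Helper20.PS.Bud μ := by
  obtain ⟨K, g, b', μ, h, hb⟩ := exists_input5 n b hcomp hint hfree hW
  exact ⟨K, g, b', μ, h.two, bud_out thmA h hb⟩

/-- **The state with the budget.** -/
theorem exists_bstate_input (thmA : ∀ (K : Set (Fin 3 → ℝ)) (f P : Fin 4 → Fin 3 → ℤ) (g : Fin 4 → Fin 3 → ℝ), LFree K →
      OChain K f P g → (∀ m : Fin 3 → ℝ, ∃ a : Fin 4 → ℝ, ∑ j, a j • g j = m) → WidthLe K (2 + Real.sqrt 2))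
    (n : Fin 5 → Fin 3 → ℝ) (b : Fin 5 → ℝ) (hcomp : IsCompact (Half n b))
    (hint : (interior (Half n b)).Nonempty) (hfree : ∀ z : Fin 3 → ℤ, toR z ∉ interior (Half n b))
    (hW : ¬ WidthLe (Half n b) (2 + Real.sqrt 2)) {κ : ℝ} (h0 : 0 ≤ κ) (h1 : κ ≤ 1) :
    ∃ K n' nC nD b' bC bD ρ lab f x t μ, BState κ K (2 + Real.sqrt 2) n' nC nD b' bC bD ρ lab f x t μ := by
  obtain ⟨K, g, b', μ, h, hb⟩ := exists_input_bud thmA n b hcomp hint hfree hW
  obtain ⟨n', nC, nD, b'', bC, bD, ρ, lab, f, x, t, hs⟩ := exists_bstate thmA h0 h1 h hb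
  exact ⟨K, n', nC, nD, b'', bC, bD, ρ, lab, f, x, t, μ, hs⟩

end Pool.Agent.Helper65.FIVE
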