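import Mathlib

/-!
# Parity of the number of rainbow cells under a flip of the superbase

`lab` : labels of the lattice points in `Fin 5`.  `NN lab f` is the number modulo two of the flags `(z, σ)` with the
labels `0` at `z` and `1, 2, 3` at the other vertices of the cell `z, z + f (σ 0), ..`.  If it is different for `f` and
for the flip of `f`, there is an octahedron with an odd number of such cells in its two triangulations.
-/

set_option autoImplicit false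

namespace Pool.Agent.Helper65.FIVE

open Equiv

/-- the labels are `0, 1, 2, 3` -/
def Rb (l0 l1 l2 l3 : Fin 5) : Bool :=
  Nat.beq (Nat.lor (Nat.lor (Nat.shiftLeft 1 l0.val) (Nat.shiftLeft 1 l1.val))
    (Nat.lor (Nat.shiftLeft 1 l2.val) (Nat.shiftLeft 1 l3.val))) 15

/-- indicator of the labels `0, 1, 2, 3` -/
def R (l0 l1 l2 l3 : Fin 5) : ZMod 2 := if Rb l0 l1 l2 l3 then 1 else 0

/-- the label `0` first -/
def F4 (l0 l1 l2 l3 : Fin 5) : ZMod 2 := if l0 = 0 then R l0 l1 l2 l3 else 0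

theorem R_iff (l0 l1 l2 l3 : Fin 5) : Rb l0 l1 l2 l3 = true ↔
    ∀ i : Fin 5, i ≠ 4 → l0 = i ∨ l1 = i ∨ l2 = i ∨ l3 = i := by
  revert l0 l1 l2 l3
  decide +kernel

theorem F4_iff (l0 l1 l2 l3 : Fin 5) : F4 l0 l1 l2 l3 ≠ 0 ↔
    l0 = 0 ∧ ∀ i : Fin 5, i ≠ 4 → l0 = i ∨ l1 = i ∨ l2 = i ∨ l3 = i := by
  unfold F4 R
  by_cases h : l0 = 0
  · rw [if_pos h, ← R_iff]
    simp only [h, true_and, ne_eq]
    split_ifs with h' <;> simp_all
  · rw [if_neg h]
    simp [h]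

theorem R_rot (l0 l1 l2 l3 : Fin 5) :
    R l0 l1 l2 l3 = F4 l0 l1 l2 l3 + F4 l1 l2 l3 l0 + F4 l2 l3 l0 l1 + F4 l3 l0 l1 l2 := by
  revert l0 l1 l2 l3
  decide +kernel

theorem R_rot1 (l0 l1 l2 l3 : Fin 5) : R l1 l2 l3 l0 = R l0 l1 l2 l3 := by
  revert l0 l1 l2 l3
  decide +kernel

theorem R_swap01 (l0 l1 l2 l3 : Fin 5) : R l1 l0 l2 l3 = R l0 l1 l2 l3 := by
  revert l0 l1 l2 l3
  decide +kernel

/-- finitely many places where all of the labels `0, 1, 2, 3` are near -/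
def FinNear (lab : (Fin 3 → ℤ) → Fin 5) : Prop :=
  ∀ S : Finset (Fin 3 → ℤ), {z | ∀ i : Fin 5, i ≠ 4 → ∃ u ∈ S, lab (z + u) = i}.Finite

variable {lab : (Fin 3 → ℤ) → Fin 5}

theorem fin_R (h : FinNear lab) (a b c d : Fin 3 → ℤ) :
    (Function.support fun z => R (lab (z + a)) (lab (z + b)) (lab (z + c)) (lab (z + d))).Finite := by
  classical
  refine (h {a, b, c, d}).subset fun z hz i hi => ?_
  have h1 : Rb (lab (z + a)) (lab (z + b)) (lab (z + c)) (lab (z + d)) = true := by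
    by_contra hcon
    exact hz (if_neg hcon)
  rcases (R_iff _ _ _ _).1 h1 i hi with h | h | h | h
  · exact ⟨a, by simp, h⟩
  · exact ⟨b, by simp, h⟩
  · exact ⟨c, by simp, h⟩
  · exact ⟨d, by simp, h⟩

theorem fin_F (h : FinNear lab) (a b c d : Fin 3 → ℤ) :
    (Function.support fun z => F4 (lab (z + a)) (lab (z + b)) (lab (z + c)) (lab (z + d))).Finite := by
  refine (fin_R h a b c d).subset fun z hz => ?_
  intro hcon
  apply hz
  show F4 (lab (z + a)) (lab (z + b)) (lab (z + c)) (lab (z + d)) = 0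
  unfold F4
  split_ifs
  · exact hcon
  · rfl

/-- flags with the steps `u, v, w` -/
noncomputable def GG (lab : (Fin 3 → ℤ) → Fin 5) (u v w : Fin 3 → ℤ) : ZMod 2 :=
  ∑ᶠ z, F4 (lab z) (lab (z + u)) (lab (z + u + v)) (lab (z + u + v + w))

/-- cells with the steps `u, v, w` -/
noncomputable def HH (lab : (Fin 3 → ℤ) → Fin 5) (u v w : Fin 3 → ℤ) : ZMod 2 :=
  ∑ᶠ z, R (lab z) (lab (z + u)) (lab (z + u + v)) (lab (z + u + v + w))

/-- the number of flags modulo two -/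
noncomputable def NN (lab : (Fin 3 → ℤ) → Fin 5) (f : Fin 4 → Fin 3 → ℤ) : ZMod 2 :=
  ∑ σ : Perm (Fin 4), GG lab (f (σ 0)) (f (σ 1)) (f (σ 2))

theorem finsum_shift (h : (Fin 3 → ℤ) → ZMod 2) (u : Fin 3 → ℤ) : ∑ᶠ z, h (z + u) = ∑ᶠ z, h z :=
  finsum_comp_equiv (Equiv.addRight u)

theorem NN_perm (f : Fin 4 → Fin 3 → ℤ) (τ : Perm (Fin 4)) : NN lab (fun k => f (τ k)) = NN lab f := by
  unfold NN
  exact Equiv.sum_comp (Equiv.mulLeft τ) fun σ : Perm (Fin 4) => GG lab (f (σ 0)) (f (σ 1)) (f (σ 2))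

theorem NN_exists {f : Fin 4 → Fin 3 → ℤ} (h : NN lab f ≠ 0) :
    ∃ (z : Fin 3 → ℤ) (σ : Perm (Fin 4)), lab z = 0 ∧ ∀ i : Fin 5, i ≠ 4 →
      lab z = i ∨ lab (z + f (σ 0)) = i ∨ lab (z + f (σ 0) + f (σ 1)) = i ∨
        lab (z + f (σ 0) + f (σ 1) + f (σ 2)) = i := by
  by_contra hcon
  push Not at hcon
  apply h
  unfold NN GG
  refine Finset.sum_eq_zero fun σ _ => ?_
  rw [← finsum_zero (M := ZMod 2) (α := Fin 3 → ℤ)]
  congr 1
  funext z
  by_contra h1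
  obtain ⟨h2, h3⟩ := (F4_iff _ _ _ _).1 h1
  obtain ⟨i, hi, h4⟩ := hcon z σ h2
  rcases h3 i hi with h | h | h | h
  · exact h4.1 h
  · exact h4.2.1 h
  · exact h4.2.2.1 h
  · exact h4.2.2.2 h

theorem HH_rot (h : FinNear lab) (u v w t : Fin 3 → ℤ) (hs : u + v + w + t = 0) :
    HH lab u v w = GG lab u v w + GG lab v w t + GG lab w t u + GG lab t u v := by
  have e1 : GG lab v w t = ∑ᶠ z, F4 (lab (z + u)) (lab (z + (u + v))) (lab (z + (u + v + w))) (lab (z + 0)) := by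
    rw [GG, ← finsum_shift _ u]
    congr 1
    funext z
    have h1 : z + u + v = z + (u + v) := by abel
    have h2 : z + u + v + w = z + (u + v + w) := by abel
    have h3 : z + u + v + w + t = z + 0 := by rw [← hs]; abel
    rw [h3, h2, h1]
  have e2 : GG lab w t u = ∑ᶠ z, F4 (lab (z + (u + v))) (lab (z + (u + v + w))) (lab (z + 0)) (lab (z + u)) := by
    rw [GG, ← finsum_shift _ (u + v)]
    congr 1
    funext z
    have h2 : z + (u + v) + w = z + (u + v + w) := by abel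
    have h3 : z + (u + v) + w + t = z + 0 := by rw [← hs]; abel
    rw [h3, h2, add_zero]
  have e3 : GG lab t u v = ∑ᶠ z, F4 (lab (z + (u + v + w))) (lab (z + 0)) (lab (z + u)) (lab (z + (u + v))) := by
    rw [GG, ← finsum_shift _ (u + v + w)]
    congr 1
    funext z
    have h3 : z + (u + v + w) + t = z + 0 := by rw [← hs]; abel
    rw [h3, add_zero, add_assoc z u v]
  have e0 : GG lab u v w = ∑ᶠ z, F4 (lab (z + 0)) (lab (z + u)) (lab (z + (u + v))) (lab (z + (u + v + w))) := by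
    rw [GG]
    congr 1
    funext z
    simp only [add_assoc, add_zero]
  have e4 : HH lab u v w = ∑ᶠ z, R (lab (z + 0)) (lab (z + u)) (lab (z + (u + v))) (lab (z + (u + v + w))) := by
    rw [HH]
    congr 1
    funext z
    simp only [add_assoc, add_zero]
  rw [e0, e1, e2, e3, e4]
  rw [← finsum_add_distrib (fin_F h _ _ _ _) (fin_F h _ _ _ _)]
  rw [← finsum_add_distrib ((fin_F h _ _ _ _).union (fin_F h _ _ _ _) |>.subset
    (Function.support_add _ _)) (fin_F h _ _ _ _)]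
  rw [← finsum_add_distrib (((fin_F h _ _ _ _).union (fin_F h _ _ _ _)).union (fin_F h _ _ _ _) |>.subset
    ((Function.support_add _ _).trans (Set.union_subset_union_left _ (Function.support_add _ _)))) (fin_F h _ _ _ _)]
  congr 1
  funext z
  exact R_rot _ _ _ _

/-- triples of the first three values of a permutation -/
theorem sum_perm4 {M : Type*} [AddCommMonoid M] (φ : Fin 4 → Fin 4 → Fin 4 → M) :
    ∑ σ : Perm (Fin 4), φ (σ 0) (σ 1) (σ 2) =
      (φ 0 1 2 + φ 1 2 3 + φ 2 3 0 + φ 3 0 1) + (φ 0 1 3 + φ 1 3 2 + φ 3 2 0 + φ 2 0 1) +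
      (φ 0 2 1 + φ 2 1 3 + φ 1 3 0 + φ 3 0 2) + (φ 0 2 3 + φ 2 3 1 + φ 3 1 0 + φ 1 0 2) +
      (φ 0 3 1 + φ 3 1 2 + φ 1 2 0 + φ 2 0 3) + (φ 0 3 2 + φ 3 2 1 + φ 2 1 0 + φ 1 0 3) := by
  classical
  have h1 : (Finset.univ.image fun σ : Perm (Fin 4) => ((σ 0, σ 1, σ 2) : Fin 4 × Fin 4 × Fin 4)) =
      Finset.univ.filter fun x : Fin 4 × Fin 4 × Fin 4 => x.1 ≠ x.2.1 ∧ x.1 ≠ x.2.2 ∧ x.2.1 ≠ x.2.2 := by
    decide +kernel
  have h2 : ∀ σ τ : Perm (Fin 4), ((σ 0, σ 1, σ 2) : Fin 4 × Fin 4 × Fin 4) = (τ 0, τ 1, τ 2) → σ = τ := by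
    decide +kernel
  have h3 : ∑ σ : Perm (Fin 4), φ (σ 0) (σ 1) (σ 2) =
      ∑ x ∈ (Finset.univ.image fun σ : Perm (Fin 4) => ((σ 0, σ 1, σ 2) : Fin 4 × Fin 4 × Fin 4)),
        φ x.1 x.2.1 x.2.2 := by
    rw [Finset.sum_image fun σ _ τ _ he => h2 σ τ he]
  rw [h3, h1, Finset.sum_filter, Fintype.sum_prod_type]
  simp only [Fintype.sum_prod_type, Fin.sum_univ_four]
  simp only [ne_eq, Fin.isValue, not_true_eq_false, and_false, if_false, zero_add, add_zero,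
    not_false_eq_true, and_true, if_true, Fin.reduceEq]
  abel

theorem NN_cells (h : FinNear lab) (f : Fin 4 → Fin 3 → ℤ) (hf : ∑ k, f k = 0) :
    NN lab f = HH lab (f 0) (f 1) (f 2) + HH lab (f 0) (f 1) (f 3) + HH lab (f 0) (f 2) (f 1) +
      HH lab (f 0) (f 2) (f 3) + HH lab (f 0) (f 3) (f 1) + HH lab (f 0) (f 3) (f 2) := by
  rw [Fin.sum_univ_four] at hf
  rw [HH_rot h (f 0) (f 1) (f 2) (f 3) (by rw [← hf]),
    HH_rot h (f 0) (f 1) (f 3) (f 2) (by rw [← hf]; abel),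
    HH_rot h (f 0) (f 2) (f 1) (f 3) (by rw [← hf]; abel),
    HH_rot h (f 0) (f 2) (f 3) (f 1) (by rw [← hf]; abel),
    HH_rot h (f 0) (f 3) (f 1) (f 2) (by rw [← hf]; abel),
    HH_rot h (f 0) (f 3) (f 2) (f 1) (by rw [← hf]; abel)]
  unfold NN
  exact sum_perm4 fun i j k => GG lab (f i) (f j) (f k)

/-- the flip of a superbase -/
def flipF (f : Fin 4 → Fin 3 → ℤ) : Fin 4 → Fin 3 → ℤ := ![-f 0, f 1, f 2 + f 0, f 3 + f 0]

theorem flipF_sum (f : Fin 4 → Fin 3 → ℤ) (hf : ∑ k, f k = 0) : ∑ k, flipF f k = 0 := by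
  rw [Fin.sum_univ_four] at hf ⊢
  rw [← hf]
  simp only [flipF, Matrix.cons_val]
  abel

/-- number of cells with the labels `0, 1, 2, 3` in the two triangulations of the octahedron -/
def Dv (s0 s1 s2 s3 p q : Fin 5) : ZMod 2 :=
  (R s0 s1 s2 q + R s0 s1 s2 p) + (R s0 s3 s2 q + R s0 s3 s2 p) + (R s1 s0 s3 q + R s1 s0 s3 p) +
    (R s1 s2 s3 q + R s1 s2 s3 p)

/-- the octahedron with the diagonal `x, x + f 0 + f 1` -/
def octD (lab : (Fin 3 → ℤ) → Fin 5) (f : Fin 4 → Fin 3 → ℤ) (x : Fin 3 → ℤ) : ZMod 2 :=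
  Dv (lab x) (lab (x + f 0)) (lab (x + f 0 + f 1)) (lab (x + f 1)) (lab (x - f 2)) (lab (x - f 3))

theorem HH_form (a b c d u v w e : Fin 3 → ℤ) (h0 : e = a) (h1 : e + u = b) (h2 : e + u + v = c)
    (h3 : e + u + v + w = d) :
    HH lab u v w = ∑ᶠ x, R (lab (x + a)) (lab (x + b)) (lab (x + c)) (lab (x + d)) := by
  rw [HH, ← finsum_shift _ e]
  congr 1
  funext x
  rw [← h3, ← h2, ← h1, ← h0]
  simp only [add_assoc]

theorem HH_swap (a b c d u v w e : Fin 3 → ℤ) (h0 : e = b) (h1 : e + u = a) (h2 : e + u + v = c)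
    (h3 : e + u + v + w = d) :
    HH lab u v w = ∑ᶠ x, R (lab (x + a)) (lab (x + b)) (lab (x + c)) (lab (x + d)) := by
  rw [HH_form b a c d u v w e h0 h1 h2 h3]
  congr 1
  funext x
  exact R_swap01 _ _ _ _

theorem HH_rotf (a b c d u v w e : Fin 3 → ℤ) (h0 : e = b) (h1 : e + u = c) (h2 : e + u + v = d)
    (h3 : e + u + v + w = a) :
    HH lab u v w = ∑ᶠ x, R (lab (x + a)) (lab (x + b)) (lab (x + c)) (lab (x + d)) := by
  rw [HH_form b c d a u v w e h0 h1 h2 h3]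
  congr 1
  funext x
  exact R_rot1 _ _ _ _

/-- a common finite set of places -/
theorem exists_common (h : FinNear lab) (S : Finset (Fin 3 → ℤ)) : ∃ U : Finset (Fin 3 → ℤ), ∀ a ∈ S, ∀ b ∈ S,
    ∀ c ∈ S, ∀ d ∈ S, ∑ᶠ x, R (lab (x + a)) (lab (x + b)) (lab (x + c)) (lab (x + d)) =
      ∑ x ∈ U, R (lab (x + a)) (lab (x + b)) (lab (x + c)) (lab (x + d)) := by
  classical
  refine ⟨(h S).toFinset, fun a ha b hb c hc d hd => finsum_eq_sum_of_support_subset _ fun z hz => ?_⟩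
  rw [Set.Finite.coe_toFinset]
  intro i hi
  have h1 : Rb (lab (z + a)) (lab (z + b)) (lab (z + c)) (lab (z + d)) = true := by
    by_contra hcon
    exact hz (if_neg hcon)
  rcases (R_iff _ _ _ _).1 h1 i hi with h | h | h | h
  · exact ⟨a, ha, h⟩
  · exact ⟨b, hb, h⟩
  · exact ⟨c, hc, h⟩
  · exact ⟨d, hd, h⟩

/-- **The flip comparison.** -/
theorem flip_sum (h : FinNear lab) (f : Fin 4 → Fin 3 → ℤ) (hf : ∑ k, f k = 0) :
    ∃ U : Finset (Fin 3 → ℤ), NN lab f + NN lab (flipF f) = ∑ x ∈ U, octD lab f x := by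
  rw [NN_cells h f hf, NN_cells h (flipF f) (flipF_sum f hf)]
  rw [Fin.sum_univ_four] at hf
  have hf3 : f 3 = -(f 0 + f 1 + f 2) := by
    rw [eq_neg_iff_add_eq_zero, ← hf]
    abel
  have g0 : flipF f 0 = -f 0 := rfl
  have g1 : flipF f 1 = f 1 := rfl
  have g2 : flipF f 2 = f 2 + f 0 := rfl
  have g3 : flipF f 3 = f 3 + f 0 := rfl
  rw [g0, g1, g2, g3]
  -- opposite cells
  have k1 : HH lab (-f 0) (f 2 + f 0) (f 1) = HH lab (f 0) (f 2) (f 1) := by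
    rw [HH_swap 0 (f 0) (f 0 + f 2) (f 0 + f 2 + f 1) (-f 0) (f 2 + f 0) (f 1) (f 0) (by abel) (by abel) (by abel)
      (by abel), HH_form 0 (f 0) (f 0 + f 2) (f 0 + f 2 + f 1) (f 0) (f 2) (f 1) 0 (by abel) (by abel) (by abel)
      (by abel)]
  have k2 : HH lab (-f 0) (f 3 + f 0) (f 1) = HH lab (f 0) (f 3) (f 1) := by
    rw [HH_swap 0 (f 0) (f 0 + f 3) (f 0 + f 3 + f 1) (-f 0) (f 3 + f 0) (f 1) (f 0) (by abel) (by abel) (by abel)
      (by abel), HH_form 0 (f 0) (f 0 + f 3) (f 0 + f 3 + f 1) (f 0) (f 3) (f 1) 0 (by abel) (by abel) (by abel)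
      (by abel)]
  obtain ⟨U, hU⟩ := exists_common h {0, f 0, f 0 + f 1, f 1, -f 2, -f 3}
  -- the four cells of `f`
  have a1 := HH_form (lab := lab) 0 (f 0) (f 0 + f 1) (-f 3) (f 0) (f 1) (f 2) 0 (by abel) (by abel) (by abel)
    (by rw [hf3]; abel)
  have a2 := HH_form (lab := lab) 0 (f 0) (f 0 + f 1) (-f 2) (f 0) (f 1) (f 3) 0 (by abel) (by abel) (by abel)
    (by rw [hf3]; abel)
  have a3 := HH_rotf (lab := lab) 0 (f 1) (f 0 + f 1) (-f 3) (f 0) (f 2) (f 3) (f 1) (by abel) (by abel)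
    (by rw [hf3]; abel) (by rw [hf3]; abel)
  have a4 := HH_rotf (lab := lab) 0 (f 1) (f 0 + f 1) (-f 2) (f 0) (f 3) (f 2) (f 1) (by abel) (by abel)
    (by rw [hf3]; abel) (by rw [hf3]; abel)
  -- the four cells of the flip
  have b1 := HH_form (lab := lab) (f 0) 0 (f 1) (-f 3) (-f 0) (f 1) (f 2 + f 0) (f 0) (by abel) (by abel) (by abel)
    (by rw [hf3]; abel)
  have b2 := HH_form (lab := lab) (f 0) 0 (f 1) (-f 2) (-f 0) (f 1) (f 3 + f 0) (f 0) (by abel) (by abel) (by abel)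
    (by rw [hf3]; abel)
  have b3 := HH_rotf (lab := lab) (f 0) (f 0 + f 1) (f 1) (-f 3) (-f 0) (f 2 + f 0) (f 3 + f 0) (f 0 + f 1) (by abel)
    (by abel) (by rw [hf3]; abel) (by rw [hf3]; abel)
  have b4 := HH_rotf (lab := lab) (f 0) (f 0 + f 1) (f 1) (-f 2) (-f 0) (f 3 + f 0) (f 2 + f 0) (f 0 + f 1) (by abel)
    (by abel) (by rw [hf3]; abel) (by rw [hf3]; abel)
  rw [hU _ (by simp) _ (by simp) _ (by simp) _ (by simp)] at a1 a2 a3 a4 b1 b2 b3 b4
  refine ⟨U, ?_⟩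
  have hD : ∀ x, octD lab f x = (R (lab (x + 0)) (lab (x + f 0)) (lab (x + (f 0 + f 1))) (lab (x + -f 3)) +
      R (lab (x + 0)) (lab (x + f 0)) (lab (x + (f 0 + f 1))) (lab (x + -f 2))) +
      (R (lab (x + 0)) (lab (x + f 1)) (lab (x + (f 0 + f 1))) (lab (x + -f 3)) +
      R (lab (x + 0)) (lab (x + f 1)) (lab (x + (f 0 + f 1))) (lab (x + -f 2))) +
      (R (lab (x + f 0)) (lab (x + 0)) (lab (x + f 1)) (lab (x + -f 3)) +
      R (lab (x + f 0)) (lab (x + 0)) (lab (x + f 1)) (lab (x + -f 2))) +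
      (R (lab (x + f 0)) (lab (x + (f 0 + f 1))) (lab (x + f 1)) (lab (x + -f 3)) +
      R (lab (x + f 0)) (lab (x + (f 0 + f 1))) (lab (x + f 1)) (lab (x + -f 2))) := by
    intro x
    simp only [octD, Dv, add_assoc, add_zero, sub_eq_add_neg]
  simp only [hD, Finset.sum_add_distrib]
  rw [← a1, ← a2, ← a3, ← a4, ← b1, ← b2, ← b3, ← b4, k1, k2]
  have h2 : ∀ y : ZMod 2, y + y = 0 := CharTwo.add_self_eq_zero
  linear_combination h2 (HH lab (f 0) (f 2) (f 1)) + h2 (HH lab (f 0) (f 3) (f 1))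

/-- different parities: there is an odd octahedron -/
theorem flip_compare (h : FinNear lab) (f : Fin 4 → Fin 3 → ℤ) (hf : ∑ k, f k = 0)
    (hne : NN lab f ≠ NN lab (flipF f)) : ∃ x, octD lab f x ≠ 0 := by
  obtain ⟨U, hU⟩ := flip_sum h f hf
  by_contra hcon
  push Not at hcon
  rw [Finset.sum_eq_zero fun x _ => hcon x] at hU
  apply hne
  have h2 : ∀ y : ZMod 2, y + y = 0 := CharTwo.add_self_eq_zero
  linear_combination hU - h2 (NN lab (flipF f))

end Pool.Agent.Helper65.FIVE
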