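import Pool.Agent.Helper65.FIVE.Flip

/-!
# Normal form of the octahedra with an odd number of cells

The moves `swap 0 1`, `swap 2 3` of the superbase and the flip with the new base point `x + f 0` act on the six labels
of the octahedron.  With the exchange of `0` and `4` and the permutations of `1, 2, 3` every odd octahedron is one of
seven.
-/

set_option autoImplicit false

namespace Pool.Agent.Helper65.FIVE

open Equiv

/-- a superbase and a base point -/
abbrev St := (Fin 4 → Fin 3 → ℤ) × (Fin 3 → ℤ)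

/-- the three moves -/
def mv : Fin 3 → St → St
  | 0, s => (![s.1 1, s.1 0, s.1 2, s.1 3], s.2)
  | 1, s => (![s.1 0, s.1 1, s.1 3, s.1 2], s.2)
  | 2, s => (![-s.1 0, s.1 1, s.1 2 + s.1 0, s.1 3 + s.1 0], s.2 + s.1 0)

/-- the six vertices of the octahedron -/
def vx (s : St) : Fin 6 → Fin 3 → ℤ :=
  ![s.2, s.2 + s.1 0, s.2 + s.1 0 + s.1 1, s.2 + s.1 1, s.2 - s.1 2, s.2 - s.1 3]

/-- the action of the moves on the six positions -/
def pm : Fin 3 → Fin 6 → Fin 6
  | 0 => ![0, 3, 2, 1, 4, 5]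
  | 1 => ![0, 1, 2, 3, 5, 4]
  | 2 => ![1, 0, 3, 2, 4, 5]

theorem vx_mv (i : Fin 3) (s : St) (k : Fin 6) : vx (mv i s) k = vx s (pm i k) := by
  obtain ⟨f, x⟩ := s
  unfold vx mv pm
  fin_cases i
  · fin_cases k
    · simp
    · simp
    · simp
      abel
    · simp
    · simp
    · simp
  · fin_cases k <;> simp
  · fin_cases k <;> simp

/-- words in the moves -/
def wd (w : List (Fin 3)) (s : St) : St := w.foldr mv s

/-- words on the positions -/
def pw (w : List (Fin 3)) (k : Fin 6) : Fin 6 := w.foldl (fun k i => pm i k) k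

theorem vx_wd (w : List (Fin 3)) (s : St) (k : Fin 6) : vx (wd w s) k = vx s (pw w k) := by
  induction w generalizing k with
  | nil => rfl
  | cons i w ih =>
    show vx (mv i (wd w s)) k = vx s (pw w (pm i k))
    rw [vx_mv, ih]

/-- the sixteen symmetries of the octahedron -/
def words : List (List (Fin 3)) :=
  [[], [0], [2], [0, 2], [2, 0], [0, 2, 0], [2, 0, 2], [0, 2, 0, 2],
    [1], [1, 0], [1, 2], [1, 0, 2], [1, 2, 0], [1, 0, 2, 0], [1, 2, 0, 2], [1, 0, 2, 0, 2]]

/-- the twelve relabelings -/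
def relab : List (Perm (Fin 5)) :=
  [1, swap 1 2, swap 1 3, swap 2 3, swap 1 2 * swap 2 3, swap 2 3 * swap 1 2,
    swap 0 4, swap 0 4 * swap 1 2, swap 0 4 * swap 1 3, swap 0 4 * swap 2 3, swap 0 4 * (swap 1 2 * swap 2 3),
    swap 0 4 * (swap 2 3 * swap 1 2)]

theorem relab_mem : ∀ π ∈ relab, ∀ l : Fin 5, (π l = 0 ∨ π l = 4) ↔ (l = 0 ∨ l = 4) := by
  decide +kernel

/-- the seven classes: base square, base square, apex `x - f 2`, apex `x - f 3` -/
def classes : List (Fin 6 → Fin 5) :=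
  [![1, 2, 3, 0, 1, 4], ![1, 2, 3, 0, 2, 4], ![1, 2, 3, 0, 0, 4], ![1, 2, 0, 4, 1, 3], ![1, 2, 0, 4, 3, 0],
    ![1, 0, 2, 4, 1, 3], ![1, 0, 2, 4, 3, 0]]

/-- parity with Booleans -/
def Db (s0 s1 s2 s3 p q : Fin 5) : Bool :=
  xor (xor (xor (Rb s0 s1 s2 q) (Rb s0 s1 s2 p)) (xor (Rb s0 s3 s2 q) (Rb s0 s3 s2 p)))
    (xor (xor (Rb s1 s0 s3 q) (Rb s1 s0 s3 p)) (xor (Rb s1 s2 s3 q) (Rb s1 s2 s3 p)))

theorem Dv_Db (s0 s1 s2 s3 p q : Fin 5) (h : Dv s0 s1 s2 s3 p q ≠ 0) : Db s0 s1 s2 s3 p q = true := by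
  revert h
  unfold Dv Db R
  generalize Rb s0 s1 s2 q = a1
  generalize Rb s0 s1 s2 p = a2
  generalize Rb s0 s3 s2 q = a3
  generalize Rb s0 s3 s2 p = a4
  generalize Rb s1 s0 s3 q = a5
  generalize Rb s1 s0 s3 p = a6
  generalize Rb s1 s2 s3 q = a7
  generalize Rb s1 s2 s3 p = a8
  revert a1 a2 a3 a4 a5 a6 a7 a8
  decide +kernel

/-- six labels -/
structure T6 where
  (a b c d p q : Fin 5)

/-- the moves on six labels -/
def T6.act : Fin 3 → T6 → T6
  | 0, t => ⟨t.a, t.d, t.c, t.b, t.p, t.q⟩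
  | 1, t => ⟨t.a, t.b, t.c, t.d, t.q, t.p⟩
  | 2, t => ⟨t.b, t.a, t.d, t.c, t.p, t.q⟩

/-- the labels of the octahedron -/
def T6.of (lab : (Fin 3 → ℤ) → Fin 5) (s : St) : T6 :=
  ⟨lab (vx s 0), lab (vx s 1), lab (vx s 2), lab (vx s 3), lab (vx s 4), lab (vx s 5)⟩

theorem T6.of_mv (lab : (Fin 3 → ℤ) → Fin 5) (i : Fin 3) (s : St) : T6.of lab (mv i s) = T6.act i (T6.of lab s) := by
  unfold T6.of
  simp only [vx_mv]
  fin_cases i <;> rfl

theorem T6.of_wd (lab : (Fin 3 → ℤ) → Fin 5) (w : List (Fin 3)) (s : St) :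
    T6.of lab (wd w s) = w.foldr T6.act (T6.of lab s) := by
  induction w with
  | nil => rfl
  | cons i w ih =>
    show T6.of lab (mv i (wd w s)) = T6.act i (w.foldr T6.act (T6.of lab s))
    rw [T6.of_mv, ih]

/-- packed relabelings, `l ↦ (r / 8 ^ l) % 8` -/
def look (r : ℕ) (l : Fin 5) : ℕ := Nat.land (Nat.shiftRight r (Nat.mul 3 l.val)) 7

/-- the code of six relabeled labels -/
def T6.code (r : ℕ) (t : T6) : ℕ :=
  Nat.add (Nat.add (Nat.add (Nat.mul (look r t.a) 32768) (Nat.mul (look r t.b) 4096))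
    (Nat.add (Nat.mul (look r t.c) 512) (Nat.mul (look r t.d) 64))) (Nat.add (Nat.mul (look r t.p) 8) (look r t.q))

/-- pack a relabeling -/
def pack (π : Fin 5 → Fin 5) : ℕ :=
  (π 0).val + (π 1).val * 8 + (π 2).val * 64 + (π 3).val * 512 + (π 4).val * 4096

theorem look_pack (π : Fin 5 → Fin 5) (l : Fin 5) : look (pack π) l = (π l).val := by
  unfold look pack
  have h0 := (π 0).isLt
  have h1 := (π 1).isLt
  have h2 := (π 2).isLt
  have h3 := (π 3).isLt
  have h4 := (π 4).isLt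
  have h7 : ∀ x : ℕ, Nat.land x 7 = x % 8 := fun x => Nat.and_two_pow_sub_one_eq_mod x 3
  have hs : ∀ x k : ℕ, Nat.shiftRight x k = x / 2 ^ k := fun x k => Nat.shiftRight_eq_div_pow x k
  rw [h7, hs]
  fin_cases l <;> simp <;> omega

/-- code of a class -/
def ccode (c : Fin 6 → Fin 5) : ℕ :=
  ((c 0).val * 32768 + (c 1).val * 4096 + ((c 2).val * 512 + (c 3).val * 64)) + ((c 4).val * 8 + (c 5).val)

/-- the packed relabelings -/
def packsL : List ℕ := [18056, 18000, 17048, 17608, 17104, 17496, 1676, 1620, 668, 1228, 724, 1116]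

/-- the codes of the classes -/
def codesL : List ℕ := [42508, 42516, 42500, 41227, 41240, 34059, 34072]

theorem packsL_eq : packsL = List.map (fun π : Perm (Fin 5) => pack ⇑π) relab := by
  decide +kernel

theorem codesL_eq : codesL = classes.map ccode := by
  decide +kernel

/-- some symmetry and some relabeling gives one of the classes -/
def chk (t : T6) : Bool :=
  words.any fun w => packsL.any fun r => codesL.any fun e => Nat.beq (T6.code r (w.foldr T6.act t)) e

theorem chk_all : ∀ a b c d p q : Fin 5, Db a b c d p q = true → chk ⟨a, b, c, d, p, q⟩ = true := by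
  decide +kernel

end Pool.Agent.Helper65.FIVE
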