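import Pool.Agent.Helper65.FIVE.Flip
import Pool.Agent.Helper1.FIVE.OState

/-!
# Odd octahedra: exactly one pyramid carries the five labels, the other apex has a label of the base
-/

set_option autoImplicit false

namespace Pool.Agent.Helper65.FIVE

open Pool.Agent.Helper1.FIVE (OneP octp)

/-- mask of a label -/
def mk (l : Fin 5) : ℕ := Nat.shiftLeft 1 l.val

/-- all five labels -/
def full (a b c d e : Fin 5) : Bool :=
  Nat.beq (Nat.lor (Nat.lor (Nat.lor (mk a) (mk b)) (Nat.lor (mk c) (mk d))) (mk e)) 31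

theorem full_iff : ∀ a b c d e : Fin 5, full a b c d e = true ↔ Function.Injective ![a, b, c, d, e] := by
  decide +kernel

/-- the parity of the octahedron, Booleans -/
def D8 (s0 s1 s2 s3 p q : Fin 5) : Bool :=
  xor (xor (xor (Rb s0 s1 s2 q) (Rb s0 s1 s2 p)) (xor (Rb s0 s3 s2 q) (Rb s0 s3 s2 p)))
    (xor (xor (Rb s1 s0 s3 q) (Rb s1 s0 s3 p)) (xor (Rb s1 s2 s3 q) (Rb s1 s2 s3 p)))

theorem Dv_D8 (s0 s1 s2 s3 p q : Fin 5) : Dv s0 s1 s2 s3 p q ≠ 0 ↔ D8 s0 s1 s2 s3 p q = true := by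
  unfold Dv D8 R
  generalize Rb s0 s1 s2 q = a1
  generalize Rb s0 s1 s2 p = a2
  generalize Rb s0 s3 s2 q = a3
  generalize Rb s0 s3 s2 p = a4
  generalize Rb s1 s0 s3 q = a5
  generalize Rb s1 s0 s3 p = a6
  generalize Rb s1 s2 s3 q = a7
  generalize Rb s1 s2 s3 p = a8
  revert a1 a2 a3 a4 a5 a6 a7 a8
  decide +kernel

theorem D8_full : ∀ a b c d p q : Fin 5, D8 a b c d p q = xor (full a b c d p) (full a b c d q) := by
  decide +kernel

theorem octD_iff (lab : (Fin 3 → ℤ) → Fin 5) (f : Fin 4 → Fin 3 → ℤ) (x : Fin 3 → ℤ) :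
    octD lab f x ≠ 0 ↔ OneP fun i => lab (octp f x i) := by
  unfold octD OneP
  rw [Dv_D8, D8_full]
  rw [← full_iff, ← full_iff]
  show xor (full (lab x) (lab (x + f 0)) (lab (x + f 0 + f 1)) (lab (x + f 1)) (lab (x - f 2)))
    (full (lab x) (lab (x + f 0)) (lab (x + f 0 + f 1)) (lab (x + f 1)) (lab (x - f 3))) = true ↔
    (full (lab x) (lab (x + f 0)) (lab (x + f 0 + f 1)) (lab (x + f 1)) (lab (x - f 2)) = true ∧
      ¬ full (lab x) (lab (x + f 0)) (lab (x + f 0 + f 1)) (lab (x + f 1)) (lab (x - f 3)) = true) ∨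
    (¬ full (lab x) (lab (x + f 0)) (lab (x + f 0 + f 1)) (lab (x + f 1)) (lab (x - f 2)) = true ∧
      full (lab x) (lab (x + f 0)) (lab (x + f 0 + f 1)) (lab (x + f 1)) (lab (x - f 3)) = true)
  cases full (lab x) (lab (x + f 0)) (lab (x + f 0 + f 1)) (lab (x + f 1)) (lab (x - f 2)) <;>
    cases full (lab x) (lab (x + f 0)) (lab (x + f 0 + f 1)) (lab (x + f 1)) (lab (x - f 3)) <;> simp

end Pool.Agent.Helper65.FIVE
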