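import Pool.Agent.Helper65.FIVE.Norm

/-!
# The state of the octahedron in normal form
-/

set_option autoImplicit false

namespace Pool.Agent.Helper65.FIVE

open Equiv

theorem code_pack (π : Fin 5 → Fin 5) (t : T6) (c : Fin 6 → Fin 5) (h : T6.code (pack π) t = ccode c) :
    π t.a = c 0 ∧ π t.b = c 1 ∧ π t.c = c 2 ∧ π t.d = c 3 ∧ π t.p = c 4 ∧ π t.q = c 5 := by
  unfold T6.code ccode at h
  simp only [look_pack, Nat.add_eq, Nat.mul_eq] at h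
  have h0 := (c 0).isLt
  have h1 := (c 1).isLt
  have h2 := (c 2).isLt
  have h3 := (c 3).isLt
  have h4 := (c 4).isLt
  have h5 := (c 5).isLt
  have k0 := (π t.a).isLt
  have k1 := (π t.b).isLt
  have k2 := (π t.c).isLt
  have k3 := (π t.d).isLt
  have k4 := (π t.p).isLt
  have k5 := (π t.q).isLt
  refine ⟨Fin.ext ?_, Fin.ext ?_, Fin.ext ?_, Fin.ext ?_, Fin.ext ?_, Fin.ext ?_⟩ <;> omega

/-- **Normal form of the odd octahedra.** -/
theorem oct_normal (lab : (Fin 3 → ℤ) → Fin 5) (f : Fin 4 → Fin 3 → ℤ) (x : Fin 3 → ℤ) (h : octD lab f x ≠ 0) :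
    ∃ w ∈ words, ∃ π : Perm (Fin 5), π ∈ relab ∧ ∃ c ∈ classes, π (lab (vx (wd w (f, x)) 0)) = c 0 ∧
      π (lab (vx (wd w (f, x)) 1)) = c 1 ∧ π (lab (vx (wd w (f, x)) 2)) = c 2 ∧
      π (lab (vx (wd w (f, x)) 3)) = c 3 ∧ π (lab (vx (wd w (f, x)) 4)) = c 4 ∧
      π (lab (vx (wd w (f, x)) 5)) = c 5 := by
  have h1 := chk_all _ _ _ _ _ _ (Dv_Db _ _ _ _ _ _ h)
  obtain ⟨w, hw, h2⟩ := List.any_eq_true.1 h1
  obtain ⟨r, hr, h3⟩ := List.any_eq_true.1 h2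
  obtain ⟨e, he, h4⟩ := List.any_eq_true.1 h3
  rw [packsL_eq] at hr
  rw [codesL_eq] at he
  obtain ⟨π, hπ, rfl⟩ := List.mem_map.1 hr
  obtain ⟨c, hc, rfl⟩ := List.mem_map.1 he
  refine ⟨w, hw, π, hπ, c, hc, ?_⟩
  have h5 : T6.code (pack π) (T6.of lab (wd w (f, x))) = ccode c := by
    rw [T6.of_wd]
    exact Nat.eq_of_beq_eq_true h4
  exact code_pack ⇑π _ c h5

/-- the moves preserve a property of superbases -/
theorem wd_induct (P : (Fin 4 → Fin 3 → ℤ) → Prop) (h0 : ∀ f, P f → P ![f 1, f 0, f 2, f 3])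
    (h1 : ∀ f, P f → P ![f 0, f 1, f 3, f 2]) (h2 : ∀ f, P f → P (flipF f)) (w : List (Fin 3)) (s : St)
    (hs : P s.1) : P (wd w s).1 := by
  induction w with
  | nil => exact hs
  | cons i w ih =>
    match i with
    | 0 => exact h0 _ ih
    | 1 => exact h1 _ ih
    | 2 => exact h2 _ ih

/-- **The state of the octahedron.** `P` is a property of superbases which does not change under the exchange of the
first two steps, of the last two steps and under the flip. -/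
theorem exists_state (lab : (Fin 3 → ℤ) → Fin 5) (P : (Fin 4 → Fin 3 → ℤ) → Prop)
    (h0 : ∀ f, P f → P ![f 1, f 0, f 2, f 3]) (h1 : ∀ f, P f → P ![f 0, f 1, f 3, f 2])
    (h2 : ∀ f, P f → P (flipF f)) (f : Fin 4 → Fin 3 → ℤ) (x : Fin 3 → ℤ) (hP : P f) (h : octD lab f x ≠ 0) :
    ∃ (e : Fin 4 → Fin 3 → ℤ) (y : Fin 3 → ℤ) (π : Perm (Fin 5)), P e ∧
      (∀ l : Fin 5, (π l = 0 ∨ π l = 4) ↔ (l = 0 ∨ l = 4)) ∧ ∃ c ∈ classes, π (lab y) = c 0 ∧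
      π (lab (y + e 0)) = c 1 ∧ π (lab (y + e 0 + e 1)) = c 2 ∧ π (lab (y + e 1)) = c 3 ∧
      π (lab (y - e 2)) = c 4 ∧ π (lab (y - e 3)) = c 5 := by
  obtain ⟨w, hw, π, hπ, c, hc, k⟩ := oct_normal lab f x h
  exact ⟨(wd w (f, x)).1, (wd w (f, x)).2, π, wd_induct P h0 h1 h2 w _ hP, relab_mem π hπ, c, hc, k⟩

/-- different numbers of cells for a superbase and its flip give the state -/
theorem exists_state_of_flip {lab : (Fin 3 → ℤ) → Fin 5} (hlab : FinNear lab) (P : (Fin 4 → Fin 3 → ℤ) → Prop)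
    (h0 : ∀ f, P f → P ![f 1, f 0, f 2, f 3]) (h1 : ∀ f, P f → P ![f 0, f 1, f 3, f 2])
    (h2 : ∀ f, P f → P (flipF f)) (f : Fin 4 → Fin 3 → ℤ) (hf : ∑ k, f k = 0) (hP : P f)
    (hne : NN lab f ≠ NN lab (flipF f)) :
    ∃ (e : Fin 4 → Fin 3 → ℤ) (y : Fin 3 → ℤ) (π : Perm (Fin 5)), P e ∧
      (∀ l : Fin 5, (π l = 0 ∨ π l = 4) ↔ (l = 0 ∨ l = 4)) ∧ ∃ c ∈ classes, π (lab y) = c 0 ∧
      π (lab (y + e 0)) = c 1 ∧ π (lab (y + e 0 + e 1)) = c 2 ∧ π (lab (y + e 1)) = c 3 ∧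
      π (lab (y - e 2)) = c 4 ∧ π (lab (y - e 3)) = c 5 := by
  obtain ⟨x, hx⟩ := flip_compare hlab f hf hne
  exact exists_state lab P h0 h1 h2 f x hP hx

end Pool.Agent.Helper65.FIVE
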